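import Pool.Agent.K3h72.Sol.Space

/-! A connected set in the square of the suspension. -/

set_option autoImplicit false
set_option linter.unusedSectionVars false

open Set Topology unitInterval

namespace Pool.Agent.K3h72.Sol

section

variable {Z X : Type} [TopologicalSpace Z] [Group Z] [IsTopologicalGroup Z] [TopologicalSpace X]
  (b : Fin 2 → Z) (p : Z × Fin 2 × I → X)

/-- `1/3` -/
noncomputable def third : I := ⟨1 / 3, by norm_num, by norm_num⟩
/-- `1/4` -/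
noncomputable def quarter : I := ⟨1 / 4, by norm_num, by norm_num⟩

/-- the loop `j` and the first thirds of both edges, at the vertex `z` -/
def MM (z : Z) (j : Fin 2) : Set X := {x | ∃ (i : Fin 2) (t : I), (t ≤ third ∨ i = j) ∧ x = p (z, i, t)}

/-- a piece of the edge `j` at the vertex `z` -/
def EEp (z : Z) (j : Fin 2) : Set X := {x | ∃ t : I, quarter ≤ t ∧ t ≤ third ∧ x = p (z, j, t)}

/-- one sheet -/
def SS (w : Z × Z) : Set (X × X) :=
  {x | ∃ j : Fin 2, (x.1 ∈ MM p w.1 j ∧ x.2 ∈ EEp p w.2 j) ∨ (x.1 ∈ EEp p w.1 (j + 1) ∧ x.2 ∈ MM p w.2 j)}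

/-- the union of all sheets -/
def KK : Set (X × X) := {x | ∃ w : Z × Z, x ∈ SS p w}

theorem EEp_conn (hp : Continuous p) (z : Z) (j : Fin 2) : IsPreconnected (EEp p z j) := by
  have : EEp p z j = (fun t : I => p (z, j, t)) '' Set.Icc quarter third := by
    ext x
    constructor
    · rintro ⟨t, h1, h2, rfl⟩
      exact ⟨t, ⟨h1, h2⟩, rfl⟩
    · rintro ⟨t, ⟨h1, h2⟩, rfl⟩
      exact ⟨t, h1, h2, rfl⟩
  rw [this]
  refine isPreconnected_Icc.image _ (Continuous.continuousOn ?_)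
  exact hp.comp (continuous_const.prodMk (continuous_const.prodMk continuous_id))

theorem MM_conn (hp : Continuous p) (h0 : ∀ z i j, p (z, i, 0) = p (z, j, 0)) (z : Z) (j : Fin 2) :
    IsPreconnected (MM p z j) := by
  have hc : ∀ i : Fin 2, Continuous (fun t : I => p (z, i, t)) := fun i =>
    hp.comp (continuous_const.prodMk (continuous_const.prodMk continuous_id))
  have : MM p z j = ((fun t : I => p (z, j, t)) '' Set.univ) ∪
      ((fun t : I => p (z, j + 1, t)) '' Set.Iic third) := by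
    ext x
    constructor
    · rintro ⟨i, t, h1, rfl⟩
      by_cases hi : i = j
      · subst hi
        exact Or.inl ⟨t, mem_univ _, rfl⟩
      · have hi' : i = j + 1 := by
          have hh : ∀ i j : Fin 2, ¬ i = j → i = j + 1 := by decide
          exact hh i j hi
        subst hi'
        rcases h1 with h1 | h1
        · exact Or.inr ⟨t, h1, rfl⟩
        · exact absurd h1 hi
    · rintro (⟨t, -, rfl⟩ | ⟨t, h1, rfl⟩)
      · exact ⟨j, t, Or.inr rfl, rfl⟩
      · exact ⟨j + 1, t, Or.inl h1, rfl⟩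
  rw [this]
  refine IsPreconnected.union (p (z, j, 0)) ⟨0, mem_univ _, rfl⟩ ⟨0, ?_, ?_⟩
    (isPreconnected_univ.image _ (hc j).continuousOn) (isPreconnected_Iic.image _ (hc _).continuousOn)
  · show (0 : I) ≤ third
    exact unitInterval.nonneg'
  · exact h0 _ _ _

theorem quarter_le_third : quarter ≤ third := by
  show (1 / 4 : ℝ) ≤ 1 / 3
  norm_num

theorem mem_MM_third (z : Z) (i j : Fin 2) : p (z, i, third) ∈ MM p z j := ⟨i, third, Or.inl le_rfl, rfl⟩

theorem mem_EEp_third (z : Z) (j : Fin 2) : p (z, j, third) ∈ EEp p z j :=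
  ⟨third, quarter_le_third, le_rfl, rfl⟩

theorem SS_conn (hp : Continuous p) (h0 : ∀ z i j, p (z, i, 0) = p (z, j, 0)) (w : Z × Z) :
    IsPreconnected (SS p w) := by
  have hH : ∀ j : Fin 2, IsPreconnected (MM p w.1 j ×ˢ EEp p w.2 j) := fun j =>
    (MM_conn p hp h0 _ _).prod (EEp_conn p hp _ _)
  have hV : ∀ j : Fin 2, IsPreconnected (EEp p w.1 (j + 1) ×ˢ MM p w.2 j) := fun j =>
    (EEp_conn p hp _ _).prod (MM_conn p hp h0 _ _)
  have hm : ∀ j k : Fin 2, (p (w.1, k + 1, third), p (w.2, j, third)) ∈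
      (MM p w.1 j ×ˢ EEp p w.2 j) ∩ (EEp p w.1 (k + 1) ×ˢ MM p w.2 k) := fun j k =>
    ⟨⟨mem_MM_third p _ _ _, mem_EEp_third p _ _⟩, ⟨mem_EEp_third p _ _, mem_MM_third p _ _ _⟩⟩
  have : SS p w = (((MM p w.1 0 ×ˢ EEp p w.2 0) ∪ (EEp p w.1 (0 + 1) ×ˢ MM p w.2 0)) ∪
      (MM p w.1 1 ×ˢ EEp p w.2 1)) ∪ (EEp p w.1 (1 + 1) ×ˢ MM p w.2 1) := by
    ext x
    constructor
    · rintro ⟨j, h | h⟩
      · fin_cases j
        · exact Or.inl (Or.inl (Or.inl ⟨h.1, h.2⟩))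
        · exact Or.inl (Or.inr ⟨h.1, h.2⟩)
      · fin_cases j
        · exact Or.inl (Or.inl (Or.inr ⟨h.1, h.2⟩))
        · exact Or.inr ⟨h.1, h.2⟩
    · rintro (((h | h) | h) | h)
      · exact ⟨0, Or.inl h⟩
      · exact ⟨0, Or.inr h⟩
      · exact ⟨1, Or.inl h⟩
      · exact ⟨1, Or.inr h⟩
  rw [this]
  refine IsPreconnected.union _ (Or.inl (Or.inl (hm 0 1).1)) (hm 0 1).2 ?_ (hV 1)
  refine IsPreconnected.union _ (Or.inr (hm 1 0).2) (hm 1 0).1 ?_ (hH 1)
  exact IsPreconnected.union _ (hm 0 0).1 (hm 0 0).2 (hH 0) (hV 0)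

theorem SS_left (h1 : ∀ z i j, p (z, i, 1) = p (b i * z, j, 0)) (z z' : Z) (j : Fin 2) :
    (SS p (z, z') ∩ SS p (b j * z, z')).Nonempty :=
  ⟨(p (z, j, 1), p (z', j, third)), ⟨j, Or.inl ⟨⟨j, 1, Or.inr rfl, rfl⟩, mem_EEp_third p _ _⟩⟩,
    ⟨j, Or.inl ⟨⟨j, 0, Or.inr rfl, h1 _ _ _⟩, mem_EEp_third p _ _⟩⟩⟩

theorem SS_right (h1 : ∀ z i j, p (z, i, 1) = p (b i * z, j, 0)) (z z' : Z) (j : Fin 2) :
    (SS p (z, z') ∩ SS p (z, b j * z')).Nonempty :=
  ⟨(p (z, j + 1, third), p (z', j, 1)), ⟨j, Or.inr ⟨mem_EEp_third p _ _, ⟨j, 1, Or.inr rfl, rfl⟩⟩⟩,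
    ⟨j, Or.inr ⟨mem_EEp_third p _ _, ⟨j, 0, Or.inr rfl, h1 _ _ _⟩⟩⟩⟩

/-- the sheets over the orbit form a connected set -/
theorem orbit_conn (hp : Continuous p) (h0 : ∀ z i j, p (z, i, 0) = p (z, j, 0))
    (h1 : ∀ z i j, p (z, i, 1) = p (b i * z, j, 0)) (G : Subgroup Z) (hG : G = Subgroup.closure (range b)) :
    IsPreconnected (⋃ w : G × G, SS p ((w.1 : Z), (w.2 : Z))) := by
  refine IsPreconnected.iUnion_of_reflTransGen (fun w => SS_conn p hp h0 _) ?_
  set R : G × G → G × G → Prop := fun i j =>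
    (SS p ((i.1 : Z), (i.2 : Z)) ∩ SS p ((j.1 : Z), (j.2 : Z))).Nonempty with hR
  have hsymm : ∀ i j, Relation.ReflTransGen R i j → Relation.ReflTransGen R j i := by
    have h2 : ∀ i j, R i j → R j i := by
      intro i j h
      show (SS p ((j.1 : Z), (j.2 : Z)) ∩ SS p ((i.1 : Z), (i.2 : Z))).Nonempty
      rw [inter_comm]
      exact h
    intro i j h
    induction h with
    | refl => exact Relation.ReflTransGen.refl
    | tail _ h4 ih => exact Relation.ReflTransGen.head (h2 _ _ h4) ih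
  have hL : ∀ g : Z, ∀ hg : g ∈ Subgroup.closure (range b), ∀ z z' : G,
      Relation.ReflTransGen R (z, z') ((⟨g, hG ▸ hg⟩ : G) * z, z') := by
    intro g hg
    induction hg using Subgroup.closure_induction with
    | mem x hx =>
      obtain ⟨j, rfl⟩ := hx
      intro z z'
      exact Relation.ReflTransGen.single (SS_left b p h1 _ _ j)
    | one =>
      intro z z'
      have : (⟨1, hG ▸ Subgroup.one_mem _⟩ : G) = 1 := rfl
      rw [this, one_mul]
    | mul x y hx hy ihx ihy =>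
      intro z z'
      have e : (⟨x * y, hG ▸ Subgroup.mul_mem _ hx hy⟩ : G) = ⟨x, hG ▸ hx⟩ * ⟨y, hG ▸ hy⟩ := rfl
      rw [e, mul_assoc]
      exact (ihy z z').trans (ihx _ _)
    | inv x hx ih =>
      intro z z'
      have e : (⟨x⁻¹, hG ▸ Subgroup.inv_mem _ hx⟩ : G) = (⟨x, hG ▸ hx⟩ : G)⁻¹ := rfl
      have := ih ((⟨x, hG ▸ hx⟩ : G)⁻¹ * z) z'
      rw [mul_inv_cancel_left] at this
      rw [e]
      exact hsymm _ _ this
  have hRt : ∀ g : Z, ∀ hg : g ∈ Subgroup.closure (range b), ∀ z z' : G,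
      Relation.ReflTransGen R (z, z') (z, (⟨g, hG ▸ hg⟩ : G) * z') := by
    intro g hg
    induction hg using Subgroup.closure_induction with
    | mem x hx =>
      obtain ⟨j, rfl⟩ := hx
      intro z z'
      exact Relation.ReflTransGen.single (SS_right b p h1 _ _ j)
    | one =>
      intro z z'
      have : (⟨1, hG ▸ Subgroup.one_mem _⟩ : G) = 1 := rfl
      rw [this, one_mul]
    | mul x y hx hy ihx ihy =>
      intro z z'
      have e : (⟨x * y, hG ▸ Subgroup.mul_mem _ hx hy⟩ : G) = ⟨x, hG ▸ hx⟩ * ⟨y, hG ▸ hy⟩ := rfl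
      rw [e, mul_assoc]
      exact (ihy z z').trans (ihx _ _)
    | inv x hx ih =>
      intro z z'
      have e : (⟨x⁻¹, hG ▸ Subgroup.inv_mem _ hx⟩ : G) = (⟨x, hG ▸ hx⟩ : G)⁻¹ := rfl
      have := ih z ((⟨x, hG ▸ hx⟩ : G)⁻¹ * z')
      rw [mul_inv_cancel_left] at this
      rw [e]
      exact hsymm _ _ this
  rintro ⟨x, y⟩ ⟨x', y'⟩
  have e1 := hL (x' * x⁻¹ : G) (hG ▸ (x' * x⁻¹ : G).2) x y
  have e2 := hRt (y' * y⁻¹ : G) (hG ▸ (y' * y⁻¹ : G).2) x' y
  have e3 : (⟨((x' * x⁻¹ : G) : Z), (x' * x⁻¹ : G).2⟩ : G) * x = x' := by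
    rw [Subtype.coe_eta, inv_mul_cancel_right]
  have e4 : (⟨((y' * y⁻¹ : G) : Z), (y' * y⁻¹ : G).2⟩ : G) * y = y' := by
    rw [Subtype.coe_eta, inv_mul_cancel_right]
  rw [e3] at e1
  rw [e4] at e2
  exact e1.trans e2

end

end Pool.Agent.K3h72.Sol
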