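import Pool.Agent.K3h72.Sol.Conn

/-! The union of all sheets is a continuum; the suspension is connected. -/

set_option autoImplicit false
set_option linter.unusedSectionVars false

open Set Topology unitInterval

namespace Pool.Agent.K3h72.Sol

section

variable {Z X : Type} [TopologicalSpace Z] [Group Z] [IsTopologicalGroup Z] [TopologicalSpace X]
  (b : Fin 2 → Z) (p : Z × Fin 2 × I → X)

theorem KK_conn (hp : Continuous p) (h0 : ∀ z i j, p (z, i, 0) = p (z, j, 0))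
    (h1 : ∀ z i j, p (z, i, 1) = p (b i * z, j, 0))
    (hd : Dense (Subgroup.closure (range b) : Set Z)) : IsConnected (KK p) := by
  refine ⟨⟨(p (1, 0, third), p (1, 0, third)), (1, 1), 0,
    Or.inl ⟨mem_MM_third p _ _ _, mem_EEp_third p _ _⟩⟩, ?_⟩
  refine (orbit_conn b p hp h0 h1 _ rfl).subset_closure ?_ ?_
  · intro x hx
    obtain ⟨w, hw⟩ := mem_iUnion.1 hx
    exact ⟨_, hw⟩
  · have key : ∀ f : Z × Z → X × X, Continuous f →
        (∀ w, f w ∈ SS p w) → ∀ w, f w ∈ closure (⋃ w : (Subgroup.closure (range b)) ×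
          (Subgroup.closure (range b)), SS p ((w.1 : Z), (w.2 : Z))) := by
      intro f hf hfw w
      have hdd : Dense ((Subgroup.closure (range b) : Set Z) ×ˢ (Subgroup.closure (range b) : Set Z)) :=
        hd.prod hd
      have h2 : f w ∈ closure (f '' ((Subgroup.closure (range b) : Set Z) ×ˢ
          (Subgroup.closure (range b) : Set Z))) :=
        image_closure_subset_closure_image hf ⟨w, hdd w, rfl⟩
      refine closure_mono ?_ h2
      rintro _ ⟨⟨u, v⟩, ⟨hu, hv⟩, rfl⟩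
      exact mem_iUnion.2 ⟨(⟨u, hu⟩, ⟨v, hv⟩), hfw _⟩
    rintro x ⟨w, j, ⟨⟨i, t, hi, e1⟩, s, hs1, hs2, e2⟩ | ⟨⟨s, hs1, hs2, e1⟩, i, t, hi, e2⟩⟩
    · have := key (fun w => (p (w.1, i, t), p (w.2, j, s)))
        ((hp.comp (continuous_fst.prodMk continuous_const)).prodMk
          (hp.comp (continuous_snd.prodMk continuous_const)))
        (fun w => ⟨j, Or.inl ⟨⟨i, t, hi, rfl⟩, s, hs1, hs2, rfl⟩⟩) w
      have e : x = (p (w.1, i, t), p (w.2, j, s)) := Prod.ext e1 e2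
      rw [e]
      exact this
    · have := key (fun w => (p (w.1, j + 1, s), p (w.2, i, t)))
        ((hp.comp (continuous_fst.prodMk continuous_const)).prodMk
          (hp.comp (continuous_snd.prodMk continuous_const)))
        (fun w => ⟨j, Or.inr ⟨⟨s, hs1, hs2, rfl⟩, i, t, hi, rfl⟩⟩) w
      have e : x = (p (w.1, j + 1, s), p (w.2, i, t)) := Prod.ext e1 e2
      rw [e]
      exact this

theorem KK_compact [CompactSpace Z] (hp : Continuous p) : IsCompact (KK p) := by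
  -- parameters: `(z, z', j, i, t, s)`
  let C : Set ((Z × Z) × (Fin 2 × Fin 2) × (I × I)) :=
    {x | (x.2.2.1 ≤ third ∨ x.2.1.2 = x.2.1.1) ∧ quarter ≤ x.2.2.2 ∧ x.2.2.2 ≤ third}
  have hz : Continuous fun x : (Z × Z) × (Fin 2 × Fin 2) × (I × I) => x.1.1 :=
    continuous_fst.comp continuous_fst
  have hz' : Continuous fun x : (Z × Z) × (Fin 2 × Fin 2) × (I × I) => x.1.2 :=
    continuous_snd.comp continuous_fst
  have hj : Continuous fun x : (Z × Z) × (Fin 2 × Fin 2) × (I × I) => x.2.1.1 :=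
    continuous_fst.comp (continuous_fst.comp continuous_snd)
  have hi : Continuous fun x : (Z × Z) × (Fin 2 × Fin 2) × (I × I) => x.2.1.2 :=
    continuous_snd.comp (continuous_fst.comp continuous_snd)
  have ht : Continuous fun x : (Z × Z) × (Fin 2 × Fin 2) × (I × I) => x.2.2.1 :=
    continuous_fst.comp (continuous_snd.comp continuous_snd)
  have hs : Continuous fun x : (Z × Z) × (Fin 2 × Fin 2) × (I × I) => x.2.2.2 :=
    continuous_snd.comp (continuous_snd.comp continuous_snd)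
  have hC : IsCompact C := by
    refine IsClosed.isCompact ?_
    refine IsClosed.inter (IsClosed.union ?_ ?_) (IsClosed.inter ?_ ?_)
    · exact isClosed_le (continuous_subtype_val.comp ht) continuous_const
    · exact isClosed_eq hi hj
    · exact isClosed_le continuous_const (continuous_subtype_val.comp hs)
    · exact isClosed_le (continuous_subtype_val.comp hs) continuous_const
  have hj1 : Continuous fun x : (Z × Z) × (Fin 2 × Fin 2) × (I × I) => x.2.1.1 + 1 :=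
    (continuous_of_discreteTopology (f := fun j : Fin 2 => j + 1)).comp hj
  have hf : Continuous fun x : (Z × Z) × (Fin 2 × Fin 2) × (I × I) =>
      (p (x.1.1, x.2.1.2, x.2.2.1), p (x.1.2, x.2.1.1, x.2.2.2)) :=
    (hp.comp (hz.prodMk (hi.prodMk ht))).prodMk (hp.comp (hz'.prodMk (hj.prodMk hs)))
  have hg : Continuous fun x : (Z × Z) × (Fin 2 × Fin 2) × (I × I) =>
      (p (x.1.1, x.2.1.1 + 1, x.2.2.2), p (x.1.2, x.2.1.2, x.2.2.1)) :=
    (hp.comp (hz.prodMk (hj1.prodMk hs))).prodMk (hp.comp (hz'.prodMk (hi.prodMk ht)))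
  have : KK p = ((fun x : (Z × Z) × (Fin 2 × Fin 2) × (I × I) =>
      (p (x.1.1, x.2.1.2, x.2.2.1), p (x.1.2, x.2.1.1, x.2.2.2))) '' C) ∪
      ((fun x : (Z × Z) × (Fin 2 × Fin 2) × (I × I) =>
      (p (x.1.1, x.2.1.1 + 1, x.2.2.2), p (x.1.2, x.2.1.2, x.2.2.1))) '' C) := by
    ext x
    constructor
    · rintro ⟨w, j, ⟨⟨i, t, hi, e1⟩, s, hs1, hs2, e2⟩ | ⟨⟨s, hs1, hs2, e1⟩, i, t, hi, e2⟩⟩
      · exact Or.inl ⟨(w, (j, i), (t, s)), ⟨hi, hs1, hs2⟩, Prod.ext e1.symm e2.symm⟩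
      · exact Or.inr ⟨(w, (j, i), (t, s)), ⟨hi, hs1, hs2⟩, Prod.ext e1.symm e2.symm⟩
    · rintro (⟨⟨w, ⟨j, i⟩, ⟨t, s⟩⟩, ⟨hi, hs1, hs2⟩, rfl⟩ | ⟨⟨w, ⟨j, i⟩, ⟨t, s⟩⟩, ⟨hi, hs1, hs2⟩, rfl⟩)
      · exact ⟨w, j, Or.inl ⟨⟨i, t, hi, rfl⟩, s, hs1, hs2, rfl⟩⟩
      · exact ⟨w, j, Or.inr ⟨⟨s, hs1, hs2, rfl⟩, i, t, hi, rfl⟩⟩
  rw [this]
  exact (hC.image hf).union (hC.image hg)

theorem X_conn (hp : Continuous p) (hs : Function.Surjective p) (h0 : ∀ z i j, p (z, i, 0) = p (z, j, 0))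
    (h1 : ∀ z i j, p (z, i, 1) = p (b i * z, j, 0))
    (hd : Dense (Subgroup.closure (range b) : Set Z)) : ConnectedSpace X := by
  rw [connectedSpace_iff_univ]
  have h2 := (KK_conn b p hp h0 h1 hd).image Prod.fst continuous_fst.continuousOn
  have : Prod.fst '' KK p = univ := by
    refine eq_univ_of_forall fun x => ?_
    obtain ⟨⟨z, i, t⟩, rfl⟩ := hs x
    exact ⟨(p (z, i, t), p (z, i, third)), ⟨(z, z), i, Or.inl ⟨⟨i, t, Or.inr rfl, rfl⟩,
      mem_EEp_third p _ _⟩⟩, rfl⟩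
  rwa [this] at h2

end

end Pool.Agent.K3h72.Sol
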