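import Pool.Agent.K3h72.Sol.Grp

/-! Two disjoint continua with interior in the square of the suspension. -/

set_option autoImplicit false
set_option linter.unusedSectionVars false

open Set Topology unitInterval

namespace Pool.Agent.K3h72.Sol

section

variable {Z X : Type} [TopologicalSpace Z] [Group Z] [IsTopologicalGroup Z] [CompactSpace Z]
  [TopologicalSpace X] [T2Space X]
  (a : Fin 2 → Z) (p : Z × Fin 2 × I → X)

theorem open_box (hp : Continuous p) (hs : Function.Surjective p)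
    (hinj : ∀ {z z' i i' t t'}, 0 < t → t < 1 → p (z, i, t) = p (z', i', t') → z = z' ∧ i = i' ∧ t = t')
    (i : Fin 2) (c d : I) : IsOpen (p '' {x | x.2.1 = i ∧ c < x.2.2 ∧ x.2.2 < d}) := by
  have h1 : IsOpen {x : Z × Fin 2 × I | x.2.1 = i ∧ c < x.2.2 ∧ x.2.2 < d} := by
    refine IsOpen.inter ?_ (IsOpen.inter ?_ ?_)
    · exact (isOpen_discrete {i}).preimage (continuous_fst.comp continuous_snd)
    · exact isOpen_lt continuous_const (continuous_subtype_val.comp (continuous_snd.comp continuous_snd))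
    · exact isOpen_lt (continuous_subtype_val.comp (continuous_snd.comp continuous_snd)) continuous_const
  have h2 : (p '' {x | x.2.1 = i ∧ c < x.2.2 ∧ x.2.2 < d})ᶜ =
      p '' {x | x.2.1 = i ∧ c < x.2.2 ∧ x.2.2 < d}ᶜ := by
    ext x
    constructor
    · intro hx
      obtain ⟨y, rfl⟩ := hs x
      exact ⟨y, fun hy => hx ⟨y, hy, rfl⟩, rfl⟩
    · rintro ⟨y, hy, rfl⟩ ⟨y', hy', e⟩
      have h0 : 0 < y'.2.2 := lt_of_le_of_lt unitInterval.nonneg' hy'.2.1
      have h1 : y'.2.2 < 1 := lt_of_lt_of_le hy'.2.2 unitInterval.le_one'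
      obtain ⟨e1, e2, e3⟩ := hinj (z := y'.1) (i := y'.2.1) (t := y'.2.2) (z' := y.1) (i' := y.2.1)
        (t' := y.2.2) h0 h1 e
      have : y' = y := Prod.ext e1 (Prod.ext e2 e3)
      subst this
      exact hy hy'
  rw [← isClosed_compl_iff, h2]
  exact (h1.isClosed_compl.isCompact.image hp).isClosed

theorem KK_interior (hp : Continuous p) (hs : Function.Surjective p)
    (hinj : ∀ {z z' i i' t t'}, 0 < t → t < 1 → p (z, i, t) = p (z', i', t') → z = z' ∧ i = i' ∧ t = t') :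
    (interior (KK p)).Nonempty := by
  have h1 := open_box p hp hs hinj 0 0 1
  have h2 := open_box p hp hs hinj 0 quarter third
  have h3 : (p '' {x | x.2.1 = 0 ∧ 0 < x.2.2 ∧ x.2.2 < 1}) ×ˢ
      (p '' {x | x.2.1 = 0 ∧ quarter < x.2.2 ∧ x.2.2 < third}) ⊆ KK p := by
    rintro ⟨x, y⟩ ⟨⟨⟨z, i, t⟩, ⟨h4, -, -⟩, rfl⟩, ⟨⟨z', i', s⟩, ⟨h5, h6, h7⟩, rfl⟩⟩
    simp only at h4 h5 h6 h7
    subst h4 h5
    exact ⟨(z, z'), 0, Or.inl ⟨⟨0, t, Or.inr rfl, rfl⟩, s, h6.le, h7.le, rfl⟩⟩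
  let m : I := ⟨7 / 24, by norm_num, by norm_num⟩
  refine ⟨(p (1, 0, third), p (1, 0, m)), interior_maximal h3 (h1.prod h2) ⟨⟨(1, 0, third), ⟨rfl, ?_, ?_⟩, rfl⟩,
    ⟨(1, 0, m), ⟨rfl, ?_, ?_⟩, rfl⟩⟩⟩
  · show (0 : ℝ) < 1 / 3
    norm_num
  · show (1 / 3 : ℝ) < 1
    norm_num
  · show (1 / 4 : ℝ) < 7 / 24
    norm_num
  · show (7 / 24 : ℝ) < 1 / 3
    norm_num

/-- the projection with the opposite direction of the edges -/
def qq (x : Z × Fin 2 × I) : X := p ((a x.2.1)⁻¹ * x.1, x.2.1, unitInterval.symm x.2.2)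

theorem qq_cont (hp : Continuous p) : Continuous (qq a p) := by
  have ha : Continuous fun j : Fin 2 => (a j)⁻¹ := continuous_of_discreteTopology
  have hj : Continuous fun x : Z × Fin 2 × I => x.2.1 := continuous_fst.comp continuous_snd
  exact hp.comp (((ha.comp hj).mul continuous_fst).prodMk
    (hj.prodMk (unitInterval.continuous_symm.comp (continuous_snd.comp continuous_snd))))

theorem qq_surj (hs : Function.Surjective p) : Function.Surjective (qq a p) := by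
  intro x
  obtain ⟨⟨z, i, t⟩, rfl⟩ := hs x
  refine ⟨(a i * z, i, unitInterval.symm t), ?_⟩
  simp [qq]

theorem qq_zero (h0 : ∀ z i j, p (z, i, 0) = p (z, j, 0)) (h1 : ∀ z i j, p (z, i, 1) = p (a i * z, j, 0))
    (z : Z) (i j : Fin 2) : qq a p (z, i, 0) = qq a p (z, j, 0) := by
  have key : ∀ i, qq a p (z, i, 0) = p (z, 0, 0) := by
    intro i
    show p ((a i)⁻¹ * z, i, unitInterval.symm 0) = _
    rw [unitInterval.symm_zero, h1 _ _ 0, mul_inv_cancel_left]
  rw [key, key]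

theorem qq_one (h0 : ∀ z i j, p (z, i, 0) = p (z, j, 0)) (h1 : ∀ z i j, p (z, i, 1) = p (a i * z, j, 0))
    (z : Z) (i j : Fin 2) : qq a p (z, i, 1) = qq a p ((a i)⁻¹ * z, j, 0) := by
  show p ((a i)⁻¹ * z, i, unitInterval.symm 1) = p ((a j)⁻¹ * ((a i)⁻¹ * z), j, unitInterval.symm 0)
  rw [unitInterval.symm_zero, unitInterval.symm_one, h1 _ _ i, mul_inv_cancel_left]

theorem qq_inj (hinj : ∀ {z z' i i' t t'}, 0 < t → t < 1 → p (z, i, t) = p (z', i', t') →
      z = z' ∧ i = i' ∧ t = t') {z z' : Z} {i i' : Fin 2} {t t' : I} (ht : 0 < t) (ht' : t < 1)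
    (h : qq a p (z, i, t) = qq a p (z', i', t')) : z = z' ∧ i = i' ∧ t = t' := by
  have h1 : 0 < unitInterval.symm t := by
    show (0 : ℝ) < 1 - t
    have : (t : ℝ) < 1 := ht'
    linarith
  have h2 : unitInterval.symm t < 1 := by
    show (1 : ℝ) - t < 1
    have : (0 : ℝ) < t := ht
    linarith
  obtain ⟨e1, e2, e3⟩ := hinj h1 h2 h
  simp only at e1 e2 e3
  subst e2
  exact ⟨mul_left_cancel e1, rfl, unitInterval.symm_bijective.1 e3⟩

theorem EE_EE (hinj : ∀ {z z' i i' t t'}, 0 < t → t < 1 → p (z, i, t) = p (z', i', t') →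
      z = z' ∧ i = i' ∧ t = t') {z z' : Z} {j j' : Fin 2} {x : X} (h : x ∈ EEp p z j)
    (h' : x ∈ EEp (qq a p) z' j') : False := by
  obtain ⟨s, hs1, hs2, rfl⟩ := h
  obtain ⟨s', hs1', hs2', e⟩ := h'
  have r1 : (1 / 4 : ℝ) ≤ s := hs1
  have r2 : (s : ℝ) ≤ 1 / 3 := hs2
  have r2' : (s' : ℝ) ≤ 1 / 3 := hs2'
  obtain ⟨-, -, e3⟩ := hinj (show (0 : ℝ) < s by linarith) (show (s : ℝ) < 1 by linarith) e
  have e4 : (s : ℝ) = 1 - s' := congrArg Subtype.val e3
  linarith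

theorem MM_EE (hinj : ∀ {z z' i i' t t'}, 0 < t → t < 1 → p (z, i, t) = p (z', i', t') →
      z = z' ∧ i = i' ∧ t = t') {z z' : Z} {j k : Fin 2} {x : X} (h : x ∈ MM p z j)
    (h' : x ∈ EEp (qq a p) z' k) : k = j := by
  obtain ⟨i, t, hi, rfl⟩ := h
  obtain ⟨s', hs1', hs2', e⟩ := h'
  have r1' : (1 / 4 : ℝ) ≤ s' := hs1'
  have r2' : (s' : ℝ) ≤ 1 / 3 := hs2'
  obtain ⟨-, e2, e3⟩ := hinj (show (0 : ℝ) < 1 - s' by linarith) (show (1 : ℝ) - s' < 1 by linarith) e.symm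
  simp only at e2 e3
  have e4 : (1 : ℝ) - s' = t := congrArg Subtype.val e3
  rcases hi with hi | hi
  · have : (t : ℝ) ≤ 1 / 3 := hi
    linarith
  · rw [e2, hi]

theorem EE_MM (hinj : ∀ {z z' i i' t t'}, 0 < t → t < 1 → p (z, i, t) = p (z', i', t') →
      z = z' ∧ i = i' ∧ t = t') {z z' : Z} {j k : Fin 2} {x : X} (h : x ∈ EEp p z k)
    (h' : x ∈ MM (qq a p) z' j) : k = j := by
  obtain ⟨s, hs1, hs2, rfl⟩ := h
  obtain ⟨i, t, hi, e⟩ := h'
  have r1 : (1 / 4 : ℝ) ≤ s := hs1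
  have r2 : (s : ℝ) ≤ 1 / 3 := hs2
  obtain ⟨-, e2, e3⟩ := hinj (show (0 : ℝ) < s by linarith) (show (s : ℝ) < 1 by linarith) e
  simp only at e2
  have e4 : (s : ℝ) = 1 - t := congrArg Subtype.val e3
  rcases hi with hi | hi
  · have : (t : ℝ) ≤ 1 / 3 := hi
    linarith
  · rw [e2, hi]

theorem KK_disj (hinj : ∀ {z z' i i' t t'}, 0 < t → t < 1 → p (z, i, t) = p (z', i', t') →
      z = z' ∧ i = i' ∧ t = t') : KK p ∩ KK (qq a p) = ∅ := by
  rw [eq_empty_iff_forall_notMem]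
  rintro x ⟨⟨w, j, h⟩, ⟨w', j', h'⟩⟩
  have hne : ∀ j : Fin 2, j + 1 ≠ j := by decide
  rcases h with ⟨h1, h2⟩ | ⟨h1, h2⟩ <;> rcases h' with ⟨h1', h2'⟩ | ⟨h1', h2'⟩
  · exact EE_EE a p hinj h2 h2'
  · have e1 := MM_EE a p hinj h1 h1'
    have e2 := EE_MM a p hinj h2 h2'
    exact hne j' (e1.trans e2)
  · have e1 := EE_MM a p hinj h1 h1'
    have e2 := MM_EE a p hinj h2 h2'
    exact hne j (e1.trans e2)
  · exact EE_EE a p hinj h1 h1'

end

/-- coordinates on the compact group -/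
noncomputable def dd (z : ZZ) (k : Σ x : Idx, PF x.1) : ℝ := by
  classical
  exact if z.1 k.1 = k.2 then 1 else 0

theorem dd_cont : Continuous dd := by
  refine continuous_pi fun k => ?_
  have h1 : Continuous fun z : ZZ => z.1 k.1 := (continuous_apply k.1).comp continuous_subtype_val
  classical
  exact (continuous_of_discreteTopology (f := fun g : PF k.1.1 => if g = k.2 then (1 : ℝ) else 0)).comp h1

theorem dd_inj : Function.Injective dd := by
  intro z w h
  apply Subtype.ext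
  funext x
  have h1 := congrFun h ⟨x, z.1 x⟩
  by_contra hne
  simp only [dd, if_true] at h1
  rw [if_neg (fun e => hne e.symm)] at h1
  exact one_ne_zero h1

/-- the indecomposable continuum -/
abbrev YY : Type := XX aa dd

/-- its projection -/
noncomputable def yy : ZZ × Fin 2 × I → YY := pp aa dd

theorem yy_cont : Continuous yy := (EE_cont aa dd dd_cont).subtype_mk _

theorem yy_surj : Function.Surjective yy := by
  rintro ⟨_, x, rfl⟩
  exact ⟨x, rfl⟩

theorem yy_zero (z : ZZ) (i j : Fin 2) : yy (z, i, 0) = yy (z, j, 0) := Subtype.ext (EE_zero aa dd z i j)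

theorem yy_one (z : ZZ) (i j : Fin 2) : yy (z, i, 1) = yy (aa i * z, j, 0) := Subtype.ext (EE_one aa dd z i j)

theorem yy_inj {z z' : ZZ} {i i' : Fin 2} {t t' : I} (h0 : 0 < t) (h1 : t < 1)
    (h : yy (z, i, t) = yy (z', i', t')) : z = z' ∧ i = i' ∧ t = t' :=
  EE_inj aa dd dd_inj h0 h1 (congrArg Subtype.val h)

theorem yy_end (x y : ZZ × Fin 2 × I) (hx : x.2.2 = 0 ∨ x.2.2 = 1) (hy : y.2.2 = 0 ∨ y.2.2 = 1)
    (h : yy x = yy y) : vv aa x = vv aa y :=
  EE_end aa dd dd_inj hx hy (congrArg Subtype.val h)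

instance YY_compact : CompactSpace YY :=
  isCompact_iff_compactSpace.1 (isCompact_range (EE_cont aa dd dd_cont))

theorem YY_metrizable : TopologicalSpace.MetrizableSpace YY := inferInstance

theorem YY_connected : ConnectedSpace YY := X_conn aa yy yy_cont yy_surj yy_zero yy_one dense_aa

theorem YY_full (C : Set YY) (hC : IsClosed C) (hconn : IsPreconnected C) (hint : (interior C).Nonempty) :
    C = univ :=
  full_of_interior aa yy yy_cont yy_surj yy_inj yy_end cut_aa C hC hconn hint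

theorem dense_inv : Dense (Subgroup.closure (range fun i => (aa i)⁻¹) : Set ZZ) := by
  have : Subgroup.closure (range fun i => (aa i)⁻¹) = Subgroup.closure (range aa) := by
    rw [← Subgroup.closure_inv (range aa)]
    congr 1
    ext x
    constructor
    · rintro ⟨i, rfl⟩
      exact ⟨i, (inv_inv _).symm⟩
    · rintro ⟨i, hi⟩
      refine ⟨i, ?_⟩
      show (aa i)⁻¹ = x
      rw [hi, inv_inv]
  rw [this]
  exact dense_aa

theorem KK1 : IsCompact (KK yy) ∧ IsConnected (KK yy) ∧ (interior (KK yy)).Nonempty :=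
  ⟨KK_compact yy yy_cont, KK_conn aa yy yy_cont yy_zero yy_one dense_aa, KK_interior yy yy_cont yy_surj yy_inj⟩

theorem KK2 : IsCompact (KK (qq aa yy)) ∧ IsConnected (KK (qq aa yy)) ∧
    (interior (KK (qq aa yy))).Nonempty :=
  ⟨KK_compact _ (qq_cont aa yy yy_cont), KK_conn (fun i => (aa i)⁻¹) (qq aa yy) (qq_cont aa yy yy_cont)
    (qq_zero aa yy yy_zero yy_one) (qq_one aa yy yy_zero yy_one) dense_inv,
    KK_interior _ (qq_cont aa yy yy_cont) (qq_surj aa yy yy_surj) (qq_inj aa yy yy_inj)⟩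

theorem KK12 : KK yy ∩ KK (qq aa yy) = ∅ := KK_disj aa yy yy_inj

end Pool.Agent.K3h72.Sol
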