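import Pool.Agent.K3h72.Sol.Indec

/-! A compact group topologically generated by two elements (the profinite completion of the free group of
rank two), in which indicator functions are coboundaries. -/

set_option autoImplicit false
set_option linter.unusedSectionVars false

open Set Topology unitInterval

namespace Pool.Agent.K3h72.Sol

/-- the finite symmetric groups with the discrete topology -/
def PF (n : ℕ) : Type := Equiv.Perm (Fin n)

instance (n : ℕ) : Group (PF n) := inferInstanceAs (Group (Equiv.Perm (Fin n)))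
instance (n : ℕ) : Finite (PF n) := inferInstanceAs (Finite (Equiv.Perm (Fin n)))
instance (n : ℕ) : Countable (PF n) := inferInstanceAs (Countable (Equiv.Perm (Fin n)))
instance (n : ℕ) : TopologicalSpace (PF n) := ⊥
instance (n : ℕ) : DiscreteTopology (PF n) := ⟨rfl⟩

/-- all pairs of elements of finite symmetric groups -/
abbrev Idx : Type := Σ n : ℕ, (Fin 2 → PF n)

/-- the product of all these symmetric groups -/
abbrev Gam : Type := ∀ x : Idx, PF x.1

/-- the two generators -/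
def gen (j : Fin 2) : Gam := fun x => x.2 j

/-- the closed subgroup generated by the two generators -/
def ZZ : Subgroup Gam := (Subgroup.closure (range gen)).topologicalClosure

theorem isClosed_ZZ : IsClosed (ZZ : Set Gam) := Subgroup.isClosed_topologicalClosure _

instance : CompactSpace ZZ := isCompact_iff_compactSpace.1 isClosed_ZZ.isCompact

theorem gen_mem (j : Fin 2) : gen j ∈ ZZ :=
  Subgroup.le_topologicalClosure _ (Subgroup.subset_closure ⟨j, rfl⟩)

/-- the generators as elements of the closed subgroup -/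
def aa (j : Fin 2) : ZZ := ⟨gen j, gen_mem j⟩

theorem dense_aa : Dense (Subgroup.closure (range aa) : Set ZZ) := by
  have h1 : (Subtype.val '' (Subgroup.closure (range aa) : Set ZZ)) = (Subgroup.closure (range gen) : Set Gam) := by
    have : (Subgroup.closure (range aa)).map ZZ.subtype = Subgroup.closure (range gen) := by
      rw [MonoidHom.map_closure]
      congr 1
      ext x
      constructor
      · rintro ⟨_, ⟨j, rfl⟩, rfl⟩
        exact ⟨j, rfl⟩
      · rintro ⟨j, rfl⟩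
        exact ⟨aa j, ⟨j, rfl⟩, rfl⟩
    rw [← this]
    rfl
  intro z
  have h2 : IsInducing (Subtype.val : ZZ → Gam) := Topology.IsInducing.subtypeVal
  rw [h2.closure_eq_preimage_closure_image]
  show z.1 ∈ closure (Subtype.val '' (Subgroup.closure (range aa) : Set ZZ))
  rw [h1]
  exact z.2

/-- a closed subgroup of `ZZ` that contains the generators is everything: for continuous homomorphisms -/
theorem ZZ_induction (P : ZZ → Prop) (hP : IsClosed {z | P z}) (h1 : P 1) (hg : ∀ j, P (aa j))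
    (hm : ∀ x y, P x → P y → P (x * y)) (hi : ∀ x, P x → P x⁻¹) (z : ZZ) : P z := by
  have : (Subgroup.closure (range aa) : Set ZZ) ⊆ {z | P z} := by
    intro x hx
    induction hx using Subgroup.closure_induction with
    | mem x hx =>
      obtain ⟨j, rfl⟩ := hx
      exact hg j
    | one => exact h1
    | mul x y _ _ hx hy => exact hm x y hx hy
    | inv x _ hx => exact hi x hx
  exact hP.closure_subset_iff.2 this (dense_aa z)

/-- the identity map -/
def toP {n : ℕ} (g : PF n) : Equiv.Perm (Fin n) := g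

theorem toP_mul {n : ℕ} (g h : PF n) : toP (g * h) = toP g * toP h := rfl

theorem toP_one {n : ℕ} : toP (1 : PF n) = 1 := rfl

/-- for a finite type `S` with two permutations there is a continuous action of `ZZ` on `S` -/
theorem exists_action (S : Type) [Finite S] (ρ : Fin 2 → Equiv.Perm S) :
    ∃ Ψ : ZZ →* Equiv.Perm S, (∀ j, Ψ (aa j) = ρ j) ∧ ∀ s : S, ∀ T : Set S, IsOpen {z : ZZ | Ψ z s ∈ T} := by
  obtain ⟨n, ⟨e⟩⟩ := Finite.exists_equiv_fin S
  let x : Idx := ⟨n, fun j => (e.permCongr (ρ j) : Equiv.Perm (Fin n))⟩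
  let F : ZZ →* Equiv.Perm S :=
    { toFun := fun z => e.symm.permCongr (toP (z.1 x))
      map_one' := by
        ext s
        show e.symm ((1 : Equiv.Perm (Fin n)) (e s)) = s
        simp
      map_mul' := by
        intro z w
        ext s
        show e.symm (toP (z.1 x) (toP (w.1 x) (e s))) =
          e.symm (toP (z.1 x) (e (e.symm (toP (w.1 x) (e s)))))
        rw [e.apply_symm_apply] }
  refine ⟨F, fun j => ?_, fun s T => ?_⟩
  · ext s
    show e.symm (e ((ρ j) (e.symm (e s)))) = ρ j s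
    simp
  · have h1 : Continuous fun z : ZZ => z.1 x := (continuous_apply x).comp continuous_subtype_val
    have : {z : ZZ | F z s ∈ T} = (fun z : ZZ => z.1 x) ⁻¹' {g : PF n | e.symm (toP g (e s)) ∈ T} :=
      rfl
    rw [this]
    exact (isOpen_discrete _).preimage h1

/-- small neighbourhoods contain cosets of finite quotients -/
theorem exists_quotient (V V' : Set ZZ) (hV : IsOpen V) (hV' : IsOpen V') (z z' : ZZ) (hz : z ∈ V)
    (hz' : z' ∈ V') : ∃ J : Finset Idx, (∀ w : ZZ, (∀ x ∈ J, w.1 x = z.1 x) → w ∈ V) ∧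
      (∀ w : ZZ, (∀ x ∈ J, w.1 x = z'.1 x) → w ∈ V') := by
  classical
  have key : ∀ (V : Set ZZ) (z : ZZ), IsOpen V → z ∈ V → ∃ J : Finset Idx,
      ∀ w : ZZ, (∀ x ∈ J, w.1 x = z.1 x) → w ∈ V := by
    intro V z hV hz
    obtain ⟨U, hU, rfl⟩ := isOpen_induced_iff.1 hV
    obtain ⟨J, u, hJ, hJU⟩ := isOpen_pi_iff.1 hU z.1 hz
    refine ⟨J, fun w hw => hJU ?_⟩
    intro x hx
    rw [hw x hx]
    exact (hJ x hx).2
  obtain ⟨J, hJ⟩ := key V z hV hz
  obtain ⟨J', hJ'⟩ := key V' z' hV' hz'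
  exact ⟨J ∪ J', fun w hw => hJ w fun x hx => hw x (Finset.mem_union_left _ hx),
    fun w hw => hJ' w fun x hx => hw x (Finset.mem_union_right _ hx)⟩

/-- **The key property of the profinite completion.** -/
theorem cut_aa : Cut aa := by
  classical
  intro V V' hV hVne hV' hVne' i
  obtain ⟨z₀, hz₀⟩ := hVne
  obtain ⟨z₁, hz₁⟩ := hVne'
  obtain ⟨J, hJ, hJ'⟩ := exists_quotient V V' hV hV' z₀ z₁ hz₀ hz₁
  -- the finite quotient
  let Q : Type := ∀ x : J, PF x.1.1
  let ψ : ZZ →* Q :=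
    { toFun := fun z x => z.1 x.1
      map_one' := rfl
      map_mul' := fun _ _ => rfl }
  have hψc : ∀ T : Set Q, IsClopen (ψ ⁻¹' T) := by
    have h1 : Continuous ψ := continuous_pi fun x => (continuous_apply x.1).comp continuous_subtype_val
    exact fun T => ⟨(isClosed_discrete T).preimage h1, (isOpen_discrete T).preimage h1⟩
  let V₁ : Set ZZ := ψ ⁻¹' {ψ z₀}
  have hV₁ : ∀ z, z ∈ V₁ ↔ ψ z = ψ z₀ := fun z => Iff.rfl
  -- the extension of the quotient
  let S : Type := Q × ZMod 2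
  let ρ : Fin 2 → Equiv.Perm S := fun j =>
    { toFun := fun s => (ψ (aa j) * s.1, s.2 + if j = i ∧ s.1 = ψ z₀ then 1 else 0)
      invFun := fun s => ((ψ (aa j))⁻¹ * s.1, s.2 - if j = i ∧ (ψ (aa j))⁻¹ * s.1 = ψ z₀ then 1 else 0)
      left_inv := by
        rintro ⟨q, x⟩
        have e : (ψ (aa j))⁻¹ * (ψ (aa j) * q) = q := inv_mul_cancel_left _ _
        refine Prod.ext e ?_
        show x + (if j = i ∧ q = ψ z₀ then 1 else 0) - (if j = i ∧ (ψ (aa j))⁻¹ * (ψ (aa j) * q) = ψ z₀ then 1 else 0) = x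
        rw [e, add_sub_cancel_right]
      right_inv := by
        rintro ⟨q, x⟩
        have e : ψ (aa j) * ((ψ (aa j))⁻¹ * q) = q := mul_inv_cancel_left _ _
        refine Prod.ext e ?_
        show x - (if j = i ∧ (ψ (aa j))⁻¹ * q = ψ z₀ then 1 else 0) + (if j = i ∧ (ψ (aa j))⁻¹ * q = ψ z₀ then 1 else 0) = x
        rw [sub_add_cancel] }
  have hρ : ∀ j q x, ρ j (q, x) = (ψ (aa j) * q, x + if j = i ∧ q = ψ z₀ then 1 else 0) :=
    fun _ _ _ => rfl
  obtain ⟨Ψ, hΨ, hΨc⟩ := exists_action S ρ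
  -- the first component
  have hclosed : ∀ (s : S) (T : ZZ → Set S), (∀ t : S, IsClopen {z | t ∈ T z}) →
      IsClosed {z : ZZ | Ψ z s ∈ T z} := by
    intro s T hT
    have h1 : {z : ZZ | Ψ z s ∈ T z}ᶜ = ⋃ t : S, ({z : ZZ | Ψ z s ∈ ({t} : Set S)} ∩ {z | t ∈ T z}ᶜ) := by
      ext z
      simp only [mem_compl_iff, mem_iUnion, mem_inter_iff]
      constructor
      · intro h
        exact ⟨Ψ z s, rfl, h⟩
      · rintro ⟨t, h2, h3⟩ h4
        have h2' : Ψ z s = t := h2
        rw [← h2'] at h3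
        exact h3 h4
    rw [← isOpen_compl_iff, h1]
    exact isOpen_iUnion fun t => (hΨc s {t}).inter (hT t).1.isOpen_compl
  have hfst : ∀ z : ZZ, ∀ s : S, (Ψ z s).1 = ψ z * s.1 := by
    intro z
    refine ZZ_induction (fun z => ∀ s : S, (Ψ z s).1 = ψ z * s.1) ?_ ?_ ?_ ?_ ?_ z
    · have : {z : ZZ | ∀ s : S, (Ψ z s).1 = ψ z * s.1} =
          ⋂ s : S, {z : ZZ | Ψ z s ∈ {t : S | t.1 = ψ z * s.1}} := by
        ext z
        simp only [mem_iInter]
        rfl
      rw [this]
      refine isClosed_iInter fun s => hclosed s _ fun t => ?_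
      have : {z : ZZ | t ∈ {t : S | t.1 = ψ z * s.1}} = ψ ⁻¹' {q | t.1 = q * s.1} := rfl
      rw [this]
      exact hψc _
    · intro s
      rw [map_one, map_one, one_mul]
      rfl
    · rintro j ⟨q, x⟩
      rw [hΨ, hρ]
    · intro x y hx hy s
      rw [map_mul, map_mul, Equiv.Perm.mul_apply, hx, hy, mul_assoc]
    · intro x hx s
      have := hx (Ψ x⁻¹ s)
      rw [← Equiv.Perm.mul_apply, ← map_mul, mul_inv_cancel, map_one] at this
      rw [map_inv ψ, eq_inv_mul_iff_mul_eq, ← this]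
      rfl
  -- the shift commutes with the action
  have hsh : ∀ z : ZZ, ∀ (q : Q) (x : ZMod 2), Ψ z (q, x + 1) = ((Ψ z (q, x)).1, (Ψ z (q, x)).2 + 1) := by
    intro z
    refine ZZ_induction (fun z => ∀ (q : Q) (x : ZMod 2), Ψ z (q, x + 1) = ((Ψ z (q, x)).1, (Ψ z (q, x)).2 + 1))
      ?_ ?_ ?_ ?_ ?_ z
    · have : {z : ZZ | ∀ (q : Q) (x : ZMod 2), Ψ z (q, x + 1) = ((Ψ z (q, x)).1, (Ψ z (q, x)).2 + 1)} =
          ⋂ (q : Q) (x : ZMod 2), {z : ZZ | Ψ z (q, x + 1) ∈ {t : S | t = ((Ψ z (q, x)).1, (Ψ z (q, x)).2 + 1)}} := by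
        ext z
        simp only [mem_iInter]
        rfl
      rw [this]
      refine isClosed_iInter fun q => isClosed_iInter fun x => hclosed _ _ fun t => ?_
      have h1 : ∀ T : Set S, {z : ZZ | Ψ z (q, x) ∈ T}ᶜ = {z : ZZ | Ψ z (q, x) ∈ Tᶜ} := fun T => rfl
      have h2 : {z : ZZ | t ∈ {t : S | t = ((Ψ z (q, x)).1, (Ψ z (q, x)).2 + 1)}} =
          {z : ZZ | Ψ z (q, x) ∈ {r : S | t = (r.1, r.2 + 1)}} := rfl
      rw [h2]
      refine ⟨?_, hΨc _ _⟩
      rw [← isOpen_compl_iff, h1]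
      exact hΨc _ _
    · intro q x
      rw [map_one]
      rfl
    · intro j q x
      rw [hΨ, hρ, hρ]
      exact Prod.ext rfl (add_right_comm _ _ _)
    · intro u v hu hv q x
      rw [map_mul, Equiv.Perm.mul_apply, hv, hu, Equiv.Perm.mul_apply]
    · intro u hu q x
      have h1 := hu (Ψ u⁻¹ (q, x)).1 (Ψ u⁻¹ (q, x)).2
      have h2 : Ψ u ((Ψ u⁻¹ (q, x)).1, (Ψ u⁻¹ (q, x)).2) = (q, x) := by
        show Ψ u (Ψ u⁻¹ (q, x)) = (q, x)
        rw [← Equiv.Perm.mul_apply, ← map_mul, mul_inv_cancel, map_one]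
        rfl
      rw [h2] at h1
      have h3 : Ψ u⁻¹ (Ψ u ((Ψ u⁻¹ (q, x)).1, (Ψ u⁻¹ (q, x)).2 + 1)) = Ψ u⁻¹ (q, x + 1) := by
        rw [h1]
      rw [← h3, ← Equiv.Perm.mul_apply, ← map_mul, inv_mul_cancel, map_one]
      rfl
  let φ : ZZ → ZMod 2 := fun z => (Ψ z (1, 0)).2
  have hΨφ : ∀ z, Ψ z (1, 0) = (ψ z, φ z) := by
    intro z
    refine Prod.ext ?_ rfl
    rw [hfst, mul_one]
  have hφa : ∀ j z, φ (aa j * z) = φ z + if j = i ∧ ψ z = ψ z₀ then 1 else 0 := by
    intro j z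
    show (Ψ (aa j * z) (1, 0)).2 = _
    rw [map_mul, Equiv.Perm.mul_apply, hΨφ, hΨ, hρ]
  refine ⟨V₁, fun z hz => hJ z fun x hx => congrFun ((hV₁ z).1 hz) ⟨x, hx⟩, ⟨z₀, rfl⟩, hψc _, φ, ?_,
    ?_, ?_, ?_, ?_⟩
  · refine continuous_discrete_rng.2 fun b => ?_
    exact hΨc (1, 0) {s | s.2 = b}
  · intro z hz
    rw [hφa, if_pos ⟨rfl, (hV₁ z).1 hz⟩]
  · intro z hz
    rw [hφa, if_neg (fun h => hz ((hV₁ z).2 h.2)), add_zero]
  · intro j z hj
    rw [hφa, if_neg (fun h => hj h.1), add_zero]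
  · -- a loop through the cut
    have hk : 0 < orderOf (ψ (aa i)) := orderOf_pos _
    have hloop : ∀ l : ℕ, 1 ≤ l → l ≤ orderOf (ψ (aa i)) → ∀ x : ZMod 2,
        Ψ (aa i ^ l) (ψ z₀, x) = (ψ (aa i) ^ l * ψ z₀, x + 1) := by
      intro l hl
      induction l, hl using Nat.le_induction with
      | base =>
        intro _ x
        rw [pow_one, pow_one, hΨ, hρ, if_pos ⟨rfl, rfl⟩]
      | succ l hl ih =>
        intro hl2 x
        rw [pow_succ', pow_succ', map_mul, Equiv.Perm.mul_apply, ih (by omega), hΨ, hρ, if_neg, add_zero,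
          mul_assoc]
        rintro ⟨-, h⟩
        have h3 : ψ (aa i) ^ l = 1 := by
          have := mul_right_cancel (h.trans (one_mul _).symm)
          exact this
        have := orderOf_le_of_pow_eq_one (by omega) h3
        omega
    set k := orderOf (ψ (aa i)) with hkdef
    let u : ZZ := z₀ * z₁⁻¹
    let w : ZZ := u⁻¹ * aa i ^ k * u
    have h1 : Ψ (w * z₁) (1, 0) = (ψ z₁, φ z₁ + 1) := by
      have e1 : w * z₁ = u⁻¹ * (aa i ^ k * z₀) := by
        simp only [w, u]
        group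
      have e2 : ψ (aa i) ^ k = 1 := pow_orderOf_eq_one _
      rw [e1, map_mul, map_mul, Equiv.Perm.mul_apply, Equiv.Perm.mul_apply, hΨφ z₀, hloop k hk le_rfl,
        e2, one_mul, hsh]
      have e3 : Ψ u⁻¹ (ψ z₀, φ z₀) = (ψ z₁, φ z₁) := by
        rw [← hΨφ z₀, ← hΨφ z₁, ← Equiv.Perm.mul_apply, ← map_mul]
        congr 2
        simp only [u]
        group
      rw [e3]
    rw [hΨφ, Prod.mk.injEq] at h1
    refine ⟨z₁, hz₁, w * z₁, hJ' _ fun x hx => congrFun h1.1 ⟨x, hx⟩, ?_, ?_⟩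
    · rw [hV₁, hV₁, h1.1]
    · rw [h1.2]
      intro h2
      have h3 : φ z₁ + 0 = φ z₁ + 1 := by rw [add_zero]; exact h2
      exact absurd (add_left_cancel h3) (by decide)

end Pool.Agent.K3h72.Sol
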