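import Pool.Agent.K3h72.Sol.Conn2

/-! The suspension is indecomposable. -/

set_option autoImplicit false
set_option linter.unusedSectionVars false

open Set Topology unitInterval

namespace Pool.Agent.K3h72.Sol

section

variable {Z X : Type} [TopologicalSpace Z] [Group Z] [IsTopologicalGroup Z] [CompactSpace Z]
  [TopologicalSpace X] [T2Space X]
  (a : Fin 2 → Z) (p : Z × Fin 2 × I → X)

/-- The property of the two translations that is used for indecomposability: the indicator functions of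
small open sets are coboundaries of nonconstant functions. -/
def Cut : Prop := ∀ V V' : Set Z, IsOpen V → V.Nonempty → IsOpen V' → V'.Nonempty → ∀ i : Fin 2,
  ∃ V₁ : Set Z, V₁ ⊆ V ∧ V₁.Nonempty ∧ IsClopen V₁ ∧ ∃ φ : Z → ZMod 2, Continuous φ ∧
    (∀ z, z ∈ V₁ → φ (a i * z) = φ z + 1) ∧ (∀ z, z ∉ V₁ → φ (a i * z) = φ z) ∧
    (∀ j z, j ≠ i → φ (a j * z) = φ z) ∧
    ∃ z ∈ V', ∃ z' ∈ V', (z ∈ V₁ ↔ z' ∈ V₁) ∧ φ z ≠ φ z'

theorem exists_box (hp : Continuous p) (hs : Function.Surjective p) (O : Set X) (hO : IsOpen O)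
    (hne : O.Nonempty) : ∃ (V : Set Z) (i : Fin 2) (t : I), IsOpen V ∧ V.Nonempty ∧ 0 < t ∧ t < 1 ∧
      ∀ z ∈ V, p (z, i, t) ∈ O := by
  obtain ⟨x, hx⟩ := hne
  obtain ⟨⟨z, i, t⟩, rfl⟩ := hs x
  have h1 : IsOpen {t : I | p (z, i, t) ∈ O} :=
    hO.preimage (hp.comp (continuous_const.prodMk (continuous_const.prodMk continuous_id)))
  have h2 : Dense ({0, 1}ᶜ : Set I) := by
    have : ({0, 1}ᶜ : Set I) = univ \ {0, 1} := by
      ext; simp
    rw [this]
    exact dense_univ.sdiff_finite (by simp)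
  obtain ⟨t₁, h3, h4⟩ := h2.inter_open_nonempty _ h1 ⟨t, hx⟩
  have h5 : t₁ ≠ 0 ∧ t₁ ≠ 1 := by
    simpa using h4
  refine ⟨{z | p (z, i, t₁) ∈ O}, i, t₁, ?_, ⟨z, h3⟩, unitInterval.pos_iff_ne_zero.2 h5.1,
    unitInterval.lt_one_iff_ne_one.2 h5.2, fun z hz => hz⟩
  exact hO.preimage (hp.comp (continuous_id.prodMk continuous_const))

theorem full_of_interior (hp : Continuous p) (hs : Function.Surjective p)
    (hinj : ∀ {z z' i i' t t'}, 0 < t → t < 1 → p (z, i, t) = p (z', i', t') → z = z' ∧ i = i' ∧ t = t')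
    (hend : ∀ x y : Z × Fin 2 × I, (x.2.2 = 0 ∨ x.2.2 = 1) → (y.2.2 = 0 ∨ y.2.2 = 1) → p x = p y →
      vv a x = vv a y)
    (hcut : Cut a) (C : Set X) (hC : IsClosed C) (hconn : IsPreconnected C)
    (hint : (interior C).Nonempty) : C = univ := by
  by_contra hne
  have hne' : (Cᶜ).Nonempty := nonempty_compl.2 hne
  obtain ⟨V, i, t, hV, hVne, ht0, ht1, hVC⟩ := exists_box p hp hs Cᶜ hC.isOpen_compl hne'
  obtain ⟨V', i', t', hV', hVne', ht0', ht1', hVC'⟩ := exists_box p hp hs _ isOpen_interior hint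
  obtain ⟨V₁, hV₁V, hV₁ne, hV₁, φ, hφ, hφ1, hφ2, hφ3, z, hz, z', hz', hzz, hne2⟩ :=
    hcut V V' hV hVne hV' hVne' i
  classical
  -- the function on the preimage of `C`
  let B : Set (Z × Fin 2 × I) := {x | x.2.1 = i ∧ x.1 ∈ V₁ ∧ t < x.2.2}
  let Φ : Z × Fin 2 × I → ZMod 2 := fun x => φ x.1 + if x ∈ B then 1 else 0
  have hPC : IsClosed (p ⁻¹' C) := hC.preimage hp
  have hnot : ∀ x ∈ p ⁻¹' C, x.2.1 = i → x.1 ∈ V₁ → x.2.2 ≠ t := by
    rintro ⟨z, j, s⟩ hx h1 h2 h3
    simp only at h1 h2 h3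
    subst h1 h3
    exact hVC z (hV₁V h2) hx
  -- `B` is relatively clopen in the preimage of `C`
  have hΦ : ContinuousOn Φ (p ⁻¹' C) := by
    refine ContinuousOn.add (hφ.comp continuous_fst).continuousOn ?_
    have hBo : IsOpen B := by
      refine IsOpen.inter ?_ (IsOpen.inter ?_ ?_)
      · exact (isOpen_discrete {i}).preimage (continuous_fst.comp continuous_snd)
      · exact hV₁.2.preimage continuous_fst
      · exact isOpen_lt continuous_const
          (continuous_subtype_val.comp (continuous_snd.comp continuous_snd))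
    let B' : Set (Z × Fin 2 × I) := {x | x.2.1 = i ∧ x.1 ∈ V₁ ∧ t ≤ x.2.2}
    have hBc : IsClosed B' := by
      refine IsClosed.inter ?_ (IsClosed.inter ?_ ?_)
      · exact (isClosed_discrete {i}).preimage (continuous_fst.comp continuous_snd)
      · exact hV₁.1.preimage continuous_fst
      · exact isClosed_le continuous_const
          (continuous_subtype_val.comp (continuous_snd.comp continuous_snd))
    intro x hx
    by_cases hxB : x ∈ B
    · refine ContinuousAt.continuousWithinAt ?_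
      refine ContinuousAt.congr (f := fun _ => (1 : ZMod 2)) continuousAt_const ?_
      filter_upwards [hBo.mem_nhds hxB] with y hy
      rw [if_pos hy]
    · refine ContinuousAt.continuousWithinAt ?_
      refine ContinuousAt.congr (f := fun _ => (0 : ZMod 2)) continuousAt_const ?_
      have hxB' : x ∉ B' := by
        rintro ⟨h1, h2, h3⟩
        rcases h3.lt_or_eq with h4 | h4
        · exact hxB ⟨h1, h2, h4⟩
        · exact hnot x hx h1 h2 h4.symm
      filter_upwards [hBc.isOpen_compl.mem_nhds hxB'] with y hy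
      rw [if_neg]
      rintro ⟨h1, h2, h3⟩
      exact hy ⟨h1, h2, h3.le⟩
  have hΦend : ∀ x : Z × Fin 2 × I, (x.2.2 = 0 ∨ x.2.2 = 1) → Φ x = φ (vv a x) := by
    rintro ⟨z, j, s⟩ hx
    simp only at hx
    rcases hx with rfl | rfl
    · have h1 : ((z, j, (0 : I)) : Z × Fin 2 × I) ∉ B := by
        rintro ⟨-, -, h3⟩
        exact absurd h3 (not_lt.2 unitInterval.nonneg')
      simp only [Φ, if_neg h1, vv, add_zero, if_true]
    · have h2 : vv a ((z, j, (1 : I)) : Z × Fin 2 × I) = a j * z := by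
        simp [vv]
      rw [h2]
      by_cases hj : j = i
      · subst hj
        by_cases hzV : z ∈ V₁
        · have h1 : ((z, j, (1 : I)) : Z × Fin 2 × I) ∈ B := ⟨rfl, hzV, ht1⟩
          simp only [Φ, if_pos h1]
          exact (hφ1 z hzV).symm
        · have h1 : ((z, j, (1 : I)) : Z × Fin 2 × I) ∉ B := fun h => hzV h.2.1
          simp only [Φ, if_neg h1, add_zero]
          exact (hφ2 z hzV).symm
      · have h1 : ((z, j, (1 : I)) : Z × Fin 2 × I) ∉ B := fun h => hj h.1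
        simp only [Φ, if_neg h1, add_zero]
        exact (hφ3 j z hj).symm
  have hΦp : ∀ x y : Z × Fin 2 × I, p x = p y → Φ x = Φ y := by
    intro x y hxy
    by_cases hx : 0 < x.2.2 ∧ x.2.2 < 1
    · obtain ⟨e1, e2, e3⟩ := hinj (z := x.1) (i := x.2.1) (z' := y.1) (i' := y.2.1) (t' := y.2.2) hx.1 hx.2 hxy
      have : x = y := Prod.ext e1 (Prod.ext e2 e3)
      rw [this]
    · by_cases hy : 0 < y.2.2 ∧ y.2.2 < 1
      · obtain ⟨e1, e2, e3⟩ := hinj (z := y.1) (i := y.2.1) (z' := x.1) (i' := x.2.1) (t' := x.2.2) hy.1 hy.2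
          hxy.symm
        have : y = x := Prod.ext e1 (Prod.ext e2 e3)
        rw [this]
      · have ends : ∀ s : I, ¬ (0 < s ∧ s < 1) → s = 0 ∨ s = 1 := by
          intro s hs
          by_contra hcon
          rw [not_or] at hcon
          exact hs ⟨unitInterval.pos_iff_ne_zero.2 hcon.1, unitInterval.lt_one_iff_ne_one.2 hcon.2⟩
        have hx' := ends _ hx
        have hy' := ends _ hy
        rw [hΦend x hx', hΦend y hy', hend x y hx' hy' hxy]
  -- the two closed sets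
  have hcl : ∀ T : Set (ZMod 2), IsClosed (p '' (p ⁻¹' C ∩ Φ ⁻¹' T)) := by
    intro T
    have h1 : IsClosed (p ⁻¹' C ∩ Φ ⁻¹' T) :=
      hΦ.preimage_isClosed_of_isClosed hPC (isClosed_discrete T)
    exact (h1.isCompact.image hp).isClosed
  have hx1 : p (z, i', t') ∈ C := interior_subset (hVC' z hz)
  have hx2 : p (z', i', t') ∈ C := interior_subset (hVC' z' hz')
  have hΦne : Φ (z, i', t') ≠ Φ (z', i', t') := by
    have h1 : ((z, i', t') : Z × Fin 2 × I) ∈ B ↔ ((z', i', t') : Z × Fin 2 × I) ∈ B := by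
      simp only [B, mem_ofPred_eq, hzz]
    simp only [Φ]
    by_cases h2 : ((z, i', t') : Z × Fin 2 × I) ∈ B
    · rw [if_pos h2, if_pos (h1.1 h2)]
      intro h3
      exact hne2 (add_right_cancel h3)
    · rw [if_neg h2, if_neg (fun h3 => h2 (h1.2 h3))]
      intro h3
      exact hne2 (add_right_cancel h3)
  have hpre := isPreconnected_closed_iff.1 hconn (p '' (p ⁻¹' C ∩ Φ ⁻¹' {Φ (z, i', t')}))
    (p '' (p ⁻¹' C ∩ Φ ⁻¹' {Φ (z, i', t')}ᶜ)) (hcl _) (hcl _) (by
      intro x hx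
      obtain ⟨y, rfl⟩ := hs x
      by_cases h : Φ y = Φ (z, i', t')
      · exact Or.inl ⟨y, ⟨hx, h⟩, rfl⟩
      · exact Or.inr ⟨y, ⟨hx, h⟩, rfl⟩)
    ⟨p (z, i', t'), hx1, (z, i', t'), ⟨hx1, rfl⟩, rfl⟩
    ⟨p (z', i', t'), hx2, (z', i', t'), ⟨hx2, fun h => hΦne h.symm⟩, rfl⟩
  obtain ⟨x, -, ⟨y1, ⟨-, h1⟩, e1⟩, ⟨y2, ⟨-, h2⟩, e2⟩⟩ := hpre
  refine h2 ?_
  have := hΦp y1 y2 (e1.trans e2.symm)
  show Φ y2 = _
  rw [← this]
  exact h1

end

end Pool.Agent.K3h72.Sol
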