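import Mathlib

/-! The suspension of a pair of translations of a compact group: a compact Hausdorff space fibred over the
figure eight. -/

set_option autoImplicit false
set_option linter.unusedSectionVars false

open Set Topology unitInterval

namespace Pool.Agent.K3h72.Sol

variable {Z : Type} [TopologicalSpace Z] [Group Z] [IsTopologicalGroup Z]
  {κ : Type} (a : Fin 2 → Z) (δ : Z → κ → ℝ)

/-- indicator of `j = i` -/
noncomputable def ind (j i : Fin 2) : ℝ := if j = i then 1 else 0

theorem ind_self (i : Fin 2) : ind i i = 1 := if_pos rfl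

theorem ind_ne {j i : Fin 2} (h : j ≠ i) : ind j i = 0 := if_neg h

/-- the embedding of the suspension in a vector space -/
noncomputable def EE (x : Z × Fin 2 × I) : (κ → ℝ) × (Fin 2 → ℝ × ℝ × (κ → ℝ)) :=
  (fun k => (1 - (x.2.2 : ℝ)) * δ x.1 k + (x.2.2 : ℝ) * δ (a x.2.1 * x.1) k,
    fun i => (ind x.2.1 i * ((x.2.2 : ℝ) * (1 - (x.2.2 : ℝ))),
      ind x.2.1 i * ((x.2.2 : ℝ) * (1 - (x.2.2 : ℝ)) * (x.2.2 : ℝ)),
      fun k => ind x.2.1 i * ((x.2.2 : ℝ) * (1 - (x.2.2 : ℝ)) * δ x.1 k)))

theorem EE_cont (hδ : Continuous δ) : Continuous (EE a δ) := by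
  have ha : Continuous a := continuous_of_discreteTopology
  have hi : ∀ i, Continuous (fun j => ind j i) := fun i => continuous_of_discreteTopology
  have ht : Continuous (fun x : Z × Fin 2 × I => (x.2.2 : ℝ)) :=
    continuous_subtype_val.comp (continuous_snd.comp continuous_snd)
  have hj : Continuous (fun x : Z × Fin 2 × I => x.2.1) := continuous_fst.comp continuous_snd
  have hd : ∀ k, Continuous (fun z => δ z k) := fun k => (continuous_apply k).comp hδ
  have h1 : ∀ k, Continuous (fun x : Z × Fin 2 × I => δ x.1 k) := fun k => (hd k).comp continuous_fst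
  have h2 : ∀ k, Continuous (fun x : Z × Fin 2 × I => δ (a x.2.1 * x.1) k) := fun k =>
    (hd k).comp ((ha.comp hj).mul continuous_fst)
  have h3 : ∀ i, Continuous (fun x : Z × Fin 2 × I => ind x.2.1 i) := fun i => (hi i).comp hj
  refine Continuous.prodMk (continuous_pi fun k => ?_) (continuous_pi fun i => ?_)
  · exact ((continuous_const.sub ht).mul (h1 k)).add (ht.mul (h2 k))
  · refine Continuous.prodMk ?_ (Continuous.prodMk ?_ (continuous_pi fun k => ?_))
    · exact (h3 i).mul (ht.mul (continuous_const.sub ht))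
    · exact (h3 i).mul ((ht.mul (continuous_const.sub ht)).mul ht)
    · exact (h3 i).mul ((ht.mul (continuous_const.sub ht)).mul (h1 k))

theorem EE_zero (z : Z) (i j : Fin 2) : EE a δ (z, i, 0) = EE a δ (z, j, 0) := by
  simp [EE]

theorem EE_one (z : Z) (i j : Fin 2) : EE a δ (z, i, 1) = EE a δ (a i * z, j, 0) := by
  simp [EE]

theorem EE_inj (hδ : Function.Injective δ) {z z' : Z} {i i' : Fin 2} {t t' : I} (h0 : 0 < t) (h1 : t < 1)
    (h : EE a δ (z, i, t) = EE a δ (z', i', t')) : z = z' ∧ i = i' ∧ t = t' := by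
  have h0' : (0 : ℝ) < t := h0
  have h1' : (t : ℝ) < 1 := h1
  have hpos : (0 : ℝ) < t * (1 - t) := mul_pos h0' (by linarith)
  have h2 := congrFun (congrArg Prod.snd h) i
  simp only [EE, ind_self, one_mul, Prod.mk.injEq] at h2
  obtain ⟨e1, e2, e3⟩ := h2
  have hi : i' = i := by
    by_contra hne
    rw [ind_ne hne] at e1
    linarith
  subst hi
  simp only [ind_self, one_mul] at e1 e2 e3
  have e4 : (t : ℝ) = t' := by
    rw [← e1] at e2
    exact mul_left_cancel₀ hpos.ne' e2
  have e5 : t = t' := Subtype.ext e4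
  subst e5
  refine ⟨hδ ?_, rfl, rfl⟩
  funext k
  have := congrFun e3 k
  exact mul_left_cancel₀ hpos.ne' this

/-- the vertex at an end of an edge -/
noncomputable def vv (x : Z × Fin 2 × I) : Z := if x.2.2 = 0 then x.1 else a x.2.1 * x.1

theorem EE_end (hδ : Function.Injective δ) {x y : Z × Fin 2 × I} (hx : x.2.2 = 0 ∨ x.2.2 = 1)
    (hy : y.2.2 = 0 ∨ y.2.2 = 1) (h : EE a δ x = EE a δ y) : vv a x = vv a y := by
  have key : ∀ x : Z × Fin 2 × I, (x.2.2 = 0 ∨ x.2.2 = 1) → (EE a δ x).1 = δ (vv a x) := by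
    intro x hx
    rcases hx with hx | hx
    · funext k
      simp [EE, vv, hx]
    · funext k
      simp [EE, vv, hx]
  exact hδ (by rw [← key x hx, ← key y hy, h])

/-- the suspension -/
abbrev XX : Type := Set.range (EE a δ)

/-- the projection onto the suspension -/
noncomputable def pp (x : Z × Fin 2 × I) : XX a δ := ⟨EE a δ x, x, rfl⟩

end Pool.Agent.K3h72.Sol
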